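import Pool.Agent.H2.SPL.CardinalityCpCpProof

set_option autoImplicit false

open Topology Filter Set

universe u v

namespace Pool.Agent.Results.MP_195fab_gt.CardinalityCpCp

/-!
Question 2 (Arhangel'skii 1988) for iterated function spaces: all infinite cardinals.

Throughout, `Cp X` is the set of continuous real functions on `X` with the topology of pointwise
convergence.  Outline of the proof.  Let `φ : Cp W → Cp Z` be a homeomorphism with `φ 0 = 0`.
A finite set `K` of points of `W` is a `δ`-support of `z : Z` if `|f| < δ` on `K` implies
`|φ f z| ≤ 1`.

* For a tuple `y` the set `R y` of points supported by `y` is finite, and `y ↦ R y` is upper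
  semicontinuous (`finite_and_usc_R`).
* If `n` is the least cardinality of a `δ`-support of `z`, then `z` has only finitely many
  `δ`-supports with `n` elements (`finite_supports`), and the supports with at most `n` elements
  of points close to `z` are close to those of `z` (`usc_supports`).
* Hence `Z` is a countable union of subspaces each of which has, at each of its points, local
  bases no larger than those of `W` (`local_base`).
* For `W = Cp Y` and `Z = Cp X` a Baire category argument in the sup norm on bounded continuous
  functions on `X` shows that `X` is covered by finite sets indexed by `Finset Y × ℕ`, so that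
  `X` has cardinality at most that of `Y` when `Y` is infinite.
* If `Y` is finite, then `Cp Y` is sigma-compact, hence so is `Cp X` (`isCompact_R`), and this
  forces `X` to be finite (`finite_of_sigmaCompact`).
-/

/-- Let `X` and `Y` be Tychonoff spaces such that `C_p(C_p(X))` and `C_p(C_p(Y))` are
homeomorphic.  Then either `X` and `Y` have the same cardinality, or both are finite. -/
theorem result {X : Type u} {Y : Type v} [TopologicalSpace X] [TopologicalSpace Y]
    [T35Space X] [T35Space Y]
    (h : Nonempty ({F : {f : X → ℝ // Continuous f} → ℝ // Continuous F} ≃ₜ
      {F : {f : Y → ℝ // Continuous f} → ℝ // Continuous F})) :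
    Nonempty (X ≃ Y) ∨ (Finite X ∧ Finite Y) :=
  result_proof h

end Pool.Agent.Results.MP_195fab_gt.CardinalityCpCp
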